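import Mathlib

/-! Polynomial `k`-regular maps of the complex plane with the least possible number `2k - 1` of
coordinates, for `k ≤ 5`. -/

set_option autoImplicit false

namespace Pool.Agent.Results.MP_cb9a17_ag.PlaneUpToFivePoints

open Finset

/-- `f : ℂⁿ → ℂᴺ` is `k`-regular: it is continuous and maps any `k` pairwise distinct points to
linearly independent vectors. -/
def KRegular (k : ℕ) {n N : ℕ} (f : (Fin n → ℂ) → (Fin N → ℂ)) : Prop :=
  Continuous f ∧ ∀ x : Fin k → (Fin n → ℂ), Function.Injective x →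
    LinearIndependent ℂ (fun i => f (x i))

/-- Every coordinate function of `f : ℂⁿ → ℂᴺ` is a polynomial. -/
def IsPolynomialMap {n N : ℕ} (f : (Fin n → ℂ) → (Fin N → ℂ)) : Prop :=
  ∀ j : Fin N, ∃ p : MvPolynomial (Fin n) ℂ, ∀ x, f x j = MvPolynomial.eval x p

/-- A weight with `m` vanishing moments on at most `m` values kills every function. -/
lemma kill {ι : Type} (S : Finset ι) (y l : ι → ℂ) (m : ℕ)
    (hm : (S.image y).card ≤ m) (h : ∀ j < m, ∑ i ∈ S, l i * y i ^ j = 0) (g : ℂ → ℂ) :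
    ∑ i ∈ S, l i * g (y i) = 0 := by
  classical
  rcases Nat.eq_zero_or_pos m with rfl | hpos
  · have : S = ∅ := by simpa using hm
    simp [this]
  set P := Lagrange.interpolate (S.image y) id g with hP
  have hev : ∀ i ∈ S, P.eval (y i) = g (y i) := by
    intro i hi
    exact Lagrange.eval_interpolate_at_node g (Function.injective_id.injOn)
      (mem_image_of_mem y hi)
  have hdeg : P.natDegree < m := by
    have h1 : P.degree < (S.image y).card :=
      Lagrange.degree_interpolate_lt g (Function.injective_id.injOn)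
    have h2 : P.degree < (m : ℕ) := lt_of_lt_of_le h1 (by exact_mod_cast hm)
    by_cases h0 : P = 0
    · simp [h0, hpos]
    · exact (Polynomial.natDegree_lt_iff_degree_lt h0).2 h2
  calc ∑ i ∈ S, l i * g (y i) = ∑ i ∈ S, l i * P.eval (y i) :=
        sum_congr rfl (fun i hi => by rw [hev i hi])
    _ = ∑ i ∈ S, ∑ j ∈ range m, P.coeff j * (l i * y i ^ j) := by
        refine sum_congr rfl (fun i _ => ?_)
        rw [Polynomial.eval_eq_sum_range' hdeg, mul_sum]
        exact sum_congr rfl (fun j _ => by ring)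
    _ = ∑ j ∈ range m, P.coeff j * ∑ i ∈ S, l i * y i ^ j := by
        rw [sum_comm]
        exact sum_congr rfl (fun j _ => by rw [mul_sum])
    _ = 0 := sum_eq_zero (fun j hj => by rw [h j (mem_range.1 hj), mul_zero])

/-- If the class sums vanish then every class has at least two elements. -/
lemma card_classes {ι : Type} [DecidableEq ι] (S : Finset ι) (x l : ι → ℂ)
    (hl : ∀ i ∈ S, l i ≠ 0) (hx : ∀ g : ℂ → ℂ, ∑ i ∈ S, l i * g (x i) = 0) :
    2 * (S.image x).card ≤ S.card := by
  classical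
  refine Finset.mul_card_image_le_card S 2 ?_
  intro b hb
  by_contra hlt
  obtain ⟨i, hi, rfl⟩ := mem_image.1 hb
  have hcard : (S.filter (fun a => x a = x i)).card = 1 := by
    have : 0 < (S.filter (fun a => x a = x i)).card :=
      card_pos.2 ⟨i, mem_filter.2 ⟨hi, rfl⟩⟩
    omega
  obtain ⟨j, hj⟩ := card_eq_one.1 hcard
  have hij : i = j := by
    have : i ∈ S.filter (fun a => x a = x i) := mem_filter.2 ⟨hi, rfl⟩
    rw [hj] at this
    simpa using this
  have h0 := hx (fun z => if z = x i then 1 else 0)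
  have h1 : ∑ a ∈ S, l a * (if x a = x i then (1 : ℂ) else 0) =
      ∑ a ∈ S.filter (fun a => x a = x i), l a := by
    rw [sum_filter]
    exact sum_congr rfl (fun a _ => by split_ifs <;> simp)
  rw [h1, hj, sum_singleton] at h0
  exact hl i hi (hij ▸ h0)

/-- At most three distinct points. -/
lemma small {ι : Type} [DecidableEq ι] (S : Finset ι) (x y l : ι → ℂ)
    (hl : ∀ i ∈ S, l i ≠ 0) (hinj : ∀ i ∈ S, ∀ j ∈ S, x i = x j → y i = y j → i = j)
    (hS : S.card ≤ 3) (hx : ∀ g : ℂ → ℂ, ∑ i ∈ S, l i * g (x i) = 0)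
    (hy : ∀ g : ℂ → ℂ, ∑ i ∈ S, l i * g (y i) = 0) : S = ∅ := by
  classical
  have h1 := card_classes S x l hl hx
  have h2 := card_classes S y l hl hy
  have hx1 : (S.image x).card ≤ 1 := by omega
  have hy1 : (S.image y).card ≤ 1 := by omega
  by_contra hne
  obtain ⟨i, hi⟩ := nonempty_iff_ne_empty.2 hne
  have hs : S = {i} := by
    refine eq_singleton_iff_unique_mem.2 ⟨hi, fun j hj => ?_⟩
    exact hinj j hj i hi (card_le_one.1 hx1 _ (mem_image_of_mem x hj) _ (mem_image_of_mem x hi))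
      (card_le_one.1 hy1 _ (mem_image_of_mem y hj) _ (mem_image_of_mem y hi))
  have h0 := hx (fun _ => 1)
  rw [hs, sum_singleton, mul_one] at h0
  exact hl i hi h0

/-- A set with at most two elements lies in `{a, b}`. -/
lemma two_values (T : Finset ℂ) (hT : T.card ≤ 2) : ∃ a b : ℂ, a ≠ b ∧ ∀ t ∈ T, t = a ∨ t = b := by
  classical
  rcases Nat.lt_or_ge T.card 2 with h | h
  · have h1 : T.card ≤ 1 := by omega
    rcases T.eq_empty_or_nonempty with rfl | ⟨a, ha⟩
    · exact ⟨0, 1, zero_ne_one, by simp⟩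
    · exact ⟨a, a + 1, by simp, fun t ht => Or.inl (card_le_one.1 h1 t ht a ha)⟩
  · obtain ⟨a, b, hab, rfl⟩ := card_eq_two.1 (le_antisymm hT h)
    exact ⟨a, b, hab, by simp⟩

/-- At most five distinct points, when the weight also kills `xy`. -/
lemma grid {ι : Type} [DecidableEq ι] (S : Finset ι) (x y l : ι → ℂ)
    (hl : ∀ i ∈ S, l i ≠ 0) (hinj : ∀ i ∈ S, ∀ j ∈ S, x i = x j → y i = y j → i = j)
    (hS : S.card ≤ 5) (hx : ∀ g : ℂ → ℂ, ∑ i ∈ S, l i * g (x i) = 0)
    (hy : ∀ g : ℂ → ℂ, ∑ i ∈ S, l i * g (y i) = 0) (hxy : ∑ i ∈ S, l i * (x i * y i) = 0) :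
    S = ∅ := by
  classical
  have h1 := card_classes S x l hl hx
  have h2 := card_classes S y l hl hy
  obtain ⟨a, b, hab, hX⟩ := two_values (S.image x) (by omega)
  obtain ⟨c, d, hcd, hY⟩ := two_values (S.image y) (by omega)
  by_contra hne
  obtain ⟨i, hi⟩ := nonempty_iff_ne_empty.2 hne
  have hab' : a - b ≠ 0 := sub_ne_zero.2 hab
  have hcd' : c - d ≠ 0 := sub_ne_zero.2 hcd
  -- every product of a function of `x` and a function of `y` is killed
  have key : ∀ g h : ℂ → ℂ, ∑ j ∈ S, l j * (g (x j) * h (y j)) = 0 := by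
    intro g h
    have e : ∀ j ∈ S, l j * (g (x j) * h (y j)) =
        ((g a - g b) / (a - b) * ((h c - h d) / (c - d))) * (l j * (x j * y j)) +
        (l j * ((g a - g b) / (a - b) * (h c - (h c - h d) / (c - d) * c) * x j)) +
        (l j * ((g a - (g a - g b) / (a - b) * a) *
          (h c - (h c - h d) / (c - d) * c + (h c - h d) / (c - d) * y j))) := by
      intro j hj
      have gx : g (x j) = g a - (g a - g b) / (a - b) * a + (g a - g b) / (a - b) * x j := by
        rcases hX _ (mem_image_of_mem x hj) with h | h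
        · rw [h]; ring
        · rw [h]; field_simp; ring
      have hy' : h (y j) = h c - (h c - h d) / (c - d) * c + (h c - h d) / (c - d) * y j := by
        rcases hY _ (mem_image_of_mem y hj) with h' | h'
        · rw [h']; ring
        · rw [h']; field_simp; ring
      rw [gx, hy']; ring
    rw [sum_congr rfl e, sum_add_distrib, sum_add_distrib, ← mul_sum, hxy,
      hx (fun z => (g a - g b) / (a - b) * (h c - (h c - h d) / (c - d) * c) * z),
      hy (fun z => (g a - (g a - g b) / (a - b) * a) *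
          (h c - (h c - h d) / (c - d) * c + (h c - h d) / (c - d) * z))]
    ring
  have h0 := key (fun z => if z = x i then 1 else 0) (fun z => if z = y i then 1 else 0)
  rw [sum_eq_single i] at h0
  · simp at h0
    exact hl i hi h0
  · intro j hj hji
    by_cases hxj : x j = x i
    · by_cases hyj : y j = y i
      · exact absurd (hinj j hj i hi hxj hyj) hji
      · simp [hyj]
    · simp [hxj]
  · intro h; exact absurd hi h

/-- Interpolation of `x` by a polynomial in `y` of degree at most four. -/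
lemma interp {ι : Type} [DecidableEq ι] (S : Finset ι) (x y : ι → ℂ) (m : ℕ) (hm : 0 < m)
    (hS : S.card ≤ m) (hy : ∀ i ∈ S, ∀ j ∈ S, y i = y j → i = j) :
    ∃ c : ℕ → ℂ, ∀ i ∈ S, x i = ∑ j ∈ range m, c j * y i ^ j := by
  classical
  set P := Lagrange.interpolate S y x with hP
  have hyi : Set.InjOn y (S : Set ι) := fun i hi j hj h => hy i hi j hj h
  have hdeg : P.natDegree < m := by
    have h1 : P.degree < S.card := Lagrange.degree_interpolate_lt x hyi
    have h2 : P.degree < (m : ℕ) := lt_of_lt_of_le h1 (by exact_mod_cast hS)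
    by_cases h0 : P = 0
    · simp [h0, hm]
    · exact (Polynomial.natDegree_lt_iff_degree_lt h0).2 h2
  refine ⟨P.coeff, fun i hi => ?_⟩
  rw [← Polynomial.eval_eq_sum_range' hdeg]
  exact (Lagrange.eval_interpolate_at_node x hyi hi).symm

/-- Few nonzero moments force distinct values. -/
lemma inj_of_moment {ι : Type} [DecidableEq ι] (S : Finset ι) (y l : ι → ℂ) (m : ℕ)
    (hS : S.card ≤ m + 1) (h : ∀ j < m, ∑ i ∈ S, l i * y i ^ j = 0)
    (hs : ∑ i ∈ S, l i * y i ^ m ≠ 0) : ∀ i ∈ S, ∀ j ∈ S, y i = y j → i = j := by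
  classical
  have hcard : (S.image y).card = S.card := by
    refine le_antisymm card_image_le ?_
    by_contra hlt
    exact hs (kill S y l m (by omega) h (fun z => z ^ m))
  intro i hi j hj hij
  exact (card_image_iff.1 hcard) hi hj hij

/-- Four points. -/
lemma four {ι : Type} [DecidableEq ι] (S : Finset ι) (x y l : ι → ℂ)
    (hl : ∀ i ∈ S, l i ≠ 0) (hinj : ∀ i ∈ S, ∀ j ∈ S, x i = x j → y i = y j → i = j)
    (hS : S.card ≤ 4) (h1 : ∑ i ∈ S, l i = 0) (hx1 : ∑ i ∈ S, l i * x i = 0)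
    (hy1 : ∑ i ∈ S, l i * y i = 0) (hxy : ∑ i ∈ S, l i * (x i * y i) = 0)
    (hy2 : ∑ i ∈ S, l i * y i ^ 2 = 0) (hx3 : ∑ i ∈ S, l i * x i ^ 3 = 0)
    (hm : ∑ i ∈ S, l i * (x i ^ 2 - y i ^ 3) = 0) : S = ∅ := by
  classical
  have hyj : ∀ j < 3, ∑ i ∈ S, l i * y i ^ j = 0 := by
    intro j hj
    interval_cases j
    · simpa using h1
    · simpa using hy1
    · exact hy2
  have hm' : ∑ i ∈ S, l i * x i ^ 2 = ∑ i ∈ S, l i * y i ^ 3 := by
    rw [← sub_eq_zero, ← sum_sub_distrib, ← hm]
    exact sum_congr rfl (fun i _ => by ring)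
  by_cases hs : ∑ i ∈ S, l i * y i ^ 3 = 0
  · have hx : ∀ g : ℂ → ℂ, ∑ i ∈ S, l i * g (x i) = 0 := by
      refine kill S x l 4 (card_image_le.trans hS) ?_
      intro j hj
      interval_cases j
      · simpa using h1
      · simpa using hx1
      · rw [hm', hs]
      · exact hx3
    have hy : ∀ g : ℂ → ℂ, ∑ i ∈ S, l i * g (y i) = 0 := by
      refine kill S y l 4 (card_image_le.trans hS) ?_
      intro j hj
      rcases Nat.lt_or_ge j 3 with h | h
      · exact hyj j h
      · obtain rfl : j = 3 := by omega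
        exact hs
    exact grid S x y l hl hinj (by omega) hx hy hxy
  · exfalso
    have hyi := inj_of_moment S y l 3 hS hyj hs
    obtain ⟨c, hc⟩ := interp S x y 4 (by norm_num) hS hyi
    have hc' : ∀ i ∈ S, x i = c 0 + c 1 * y i + c 2 * y i ^ 2 + c 3 * y i ^ 3 := by
      intro i hi
      rw [hc i hi]
      simp [sum_range_succ]
    set s := ∑ i ∈ S, l i * y i ^ 3 with hsdef
    have m0 := h1
    have e3 : c 3 = 0 := by
      have : ∑ i ∈ S, l i * x i = c 0 * ∑ i ∈ S, l i + c 1 * ∑ i ∈ S, l i * y i +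
          c 2 * ∑ i ∈ S, l i * y i ^ 2 + c 3 * s := by
        rw [hsdef, mul_sum, mul_sum, mul_sum, mul_sum, ← sum_add_distrib, ← sum_add_distrib,
          ← sum_add_distrib]
        exact sum_congr rfl (fun i hi => by rw [hc' i hi]; ring)
      rw [hx1, h1, hy1, hy2] at this
      have h' : c 3 * s = 0 := by linear_combination -this
      exact (mul_eq_zero.1 h').resolve_right hs
    have e2 : c 2 = 0 := by
      have : ∑ i ∈ S, l i * (x i * y i) = c 0 * ∑ i ∈ S, l i * y i +
          c 1 * ∑ i ∈ S, l i * y i ^ 2 + c 2 * s := by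
        rw [hsdef, mul_sum, mul_sum, mul_sum, ← sum_add_distrib, ← sum_add_distrib]
        exact sum_congr rfl (fun i hi => by rw [hc' i hi, e3]; ring)
      rw [hxy, hy1, hy2] at this
      have h' : c 2 * s = 0 := by linear_combination -this
      exact (mul_eq_zero.1 h').resolve_right hs
    have : ∑ i ∈ S, l i * x i ^ 2 = c 0 ^ 2 * ∑ i ∈ S, l i +
        2 * c 0 * c 1 * ∑ i ∈ S, l i * y i + c 1 ^ 2 * ∑ i ∈ S, l i * y i ^ 2 := by
      rw [mul_sum, mul_sum, mul_sum, ← sum_add_distrib, ← sum_add_distrib]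
      exact sum_congr rfl (fun i hi => by rw [hc' i hi, e3, e2]; ring)
    rw [h1, hy1, hy2, hm'] at this
    exact hs (by linear_combination this)

/-- Five points. -/
lemma five {ι : Type} [DecidableEq ι] (S : Finset ι) (x y l : ι → ℂ)
    (hl : ∀ i ∈ S, l i ≠ 0) (hinj : ∀ i ∈ S, ∀ j ∈ S, x i = x j → y i = y j → i = j)
    (hS : S.card ≤ 5) (h1 : ∑ i ∈ S, l i = 0) (hx1 : ∑ i ∈ S, l i * x i = 0)
    (hx2 : ∑ i ∈ S, l i * x i ^ 2 = 0) (hx4 : ∑ i ∈ S, l i * x i ^ 4 = 0)
    (hy1 : ∑ i ∈ S, l i * y i = 0) (hy2 : ∑ i ∈ S, l i * y i ^ 2 = 0)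
    (hy3 : ∑ i ∈ S, l i * y i ^ 3 = 0) (hxy : ∑ i ∈ S, l i * (x i * y i) = 0)
    (hm : ∑ i ∈ S, l i * (x i ^ 3 - y i ^ 4) = 0) : S = ∅ := by
  classical
  have hyj : ∀ j < 4, ∑ i ∈ S, l i * y i ^ j = 0 := by
    intro j hj
    interval_cases j
    · simpa using h1
    · simpa using hy1
    · exact hy2
    · exact hy3
  have hm' : ∑ i ∈ S, l i * x i ^ 3 = ∑ i ∈ S, l i * y i ^ 4 := by
    rw [← sub_eq_zero, ← sum_sub_distrib, ← hm]
    exact sum_congr rfl (fun i _ => by ring)
  by_cases hs : ∑ i ∈ S, l i * y i ^ 4 = 0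
  · have hx : ∀ g : ℂ → ℂ, ∑ i ∈ S, l i * g (x i) = 0 := by
      refine kill S x l 5 (card_image_le.trans hS) ?_
      intro j hj
      interval_cases j
      · simpa using h1
      · simpa using hx1
      · exact hx2
      · rw [hm', hs]
      · exact hx4
    have hy : ∀ g : ℂ → ℂ, ∑ i ∈ S, l i * g (y i) = 0 := by
      refine kill S y l 5 (card_image_le.trans hS) ?_
      intro j hj
      rcases Nat.lt_or_ge j 4 with h | h
      · exact hyj j h
      · obtain rfl : j = 4 := by omega
        exact hs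
    exact grid S x y l hl hinj (by omega) hx hy hxy
  · exfalso
    have hyi := inj_of_moment S y l 4 hS hyj hs
    obtain ⟨c, hc⟩ := interp S x y 5 (by norm_num) hS hyi
    have hc' : ∀ i ∈ S, x i =
        c 0 + c 1 * y i + c 2 * y i ^ 2 + c 3 * y i ^ 3 + c 4 * y i ^ 4 := by
      intro i hi
      rw [hc i hi]
      simp [sum_range_succ]
    set s := ∑ i ∈ S, l i * y i ^ 4 with hsdef
    have e4 : c 4 = 0 := by
      have : ∑ i ∈ S, l i * x i = c 0 * ∑ i ∈ S, l i + c 1 * ∑ i ∈ S, l i * y i +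
          c 2 * ∑ i ∈ S, l i * y i ^ 2 + c 3 * ∑ i ∈ S, l i * y i ^ 3 + c 4 * s := by
        rw [hsdef, mul_sum, mul_sum, mul_sum, mul_sum, mul_sum, ← sum_add_distrib,
          ← sum_add_distrib, ← sum_add_distrib, ← sum_add_distrib]
        exact sum_congr rfl (fun i hi => by rw [hc' i hi]; ring)
      rw [hx1, h1, hy1, hy2, hy3] at this
      have h' : c 4 * s = 0 := by linear_combination -this
      exact (mul_eq_zero.1 h').resolve_right hs
    have e3 : c 3 = 0 := by
      have : ∑ i ∈ S, l i * (x i * y i) = c 0 * ∑ i ∈ S, l i * y i +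
          c 1 * ∑ i ∈ S, l i * y i ^ 2 + c 2 * ∑ i ∈ S, l i * y i ^ 3 + c 3 * s := by
        rw [hsdef, mul_sum, mul_sum, mul_sum, mul_sum, ← sum_add_distrib, ← sum_add_distrib,
          ← sum_add_distrib]
        exact sum_congr rfl (fun i hi => by rw [hc' i hi, e4]; ring)
      rw [hxy, hy1, hy2, hy3] at this
      have h' : c 3 * s = 0 := by linear_combination -this
      exact (mul_eq_zero.1 h').resolve_right hs
    have e2 : c 2 = 0 := by
      have : ∑ i ∈ S, l i * x i ^ 2 = c 0 ^ 2 * ∑ i ∈ S, l i +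
          2 * c 0 * c 1 * ∑ i ∈ S, l i * y i + (c 1 ^ 2 + 2 * c 0 * c 2) * ∑ i ∈ S, l i * y i ^ 2 +
          2 * c 1 * c 2 * ∑ i ∈ S, l i * y i ^ 3 + c 2 ^ 2 * s := by
        rw [hsdef, mul_sum, mul_sum, mul_sum, mul_sum, mul_sum, ← sum_add_distrib,
          ← sum_add_distrib, ← sum_add_distrib, ← sum_add_distrib]
        exact sum_congr rfl (fun i hi => by rw [hc' i hi, e4, e3]; ring)
      rw [hx2, h1, hy1, hy2, hy3] at this
      have h' : c 2 ^ 2 * s = 0 := by linear_combination -this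
      exact pow_eq_zero_iff (two_ne_zero) |>.1 ((mul_eq_zero.1 h').resolve_right hs)
    have : ∑ i ∈ S, l i * x i ^ 3 = c 0 ^ 3 * ∑ i ∈ S, l i +
        3 * c 0 ^ 2 * c 1 * ∑ i ∈ S, l i * y i + 3 * c 0 * c 1 ^ 2 * ∑ i ∈ S, l i * y i ^ 2 +
        c 1 ^ 3 * ∑ i ∈ S, l i * y i ^ 3 := by
      rw [mul_sum, mul_sum, mul_sum, mul_sum, ← sum_add_distrib, ← sum_add_distrib,
        ← sum_add_distrib]
      exact sum_congr rfl (fun i hi => by rw [hc' i hi, e4, e3, e2]; ring)
    rw [h1, hy1, hy2, hy3, hm'] at this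
    exact hs (by linear_combination this)

/-- The map given by a vector of polynomials. -/
noncomputable def ofPolys {n N : ℕ} (F : Fin N → MvPolynomial (Fin n) ℂ) :
    (Fin n → ℂ) → (Fin N → ℂ) := fun p j => MvPolynomial.eval p (F j)

lemma ofPolys_poly {n N : ℕ} (F : Fin N → MvPolynomial (Fin n) ℂ) :
    IsPolynomialMap (ofPolys F) := fun j => ⟨F j, fun _ => rfl⟩

lemma ofPolys_cont {n N : ℕ} (F : Fin N → MvPolynomial (Fin n) ℂ) : Continuous (ofPolys F) :=
  continuous_pi (fun j => MvPolynomial.continuous_eval (F j))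

/-- A criterion for regularity through the support of a relation. -/
lemma regular_of {k N : ℕ} (F : Fin N → MvPolynomial (Fin 2) ℂ)
    (h : ∀ (S : Finset (Fin k)) (x : Fin k → (Fin 2 → ℂ)) (l : Fin k → ℂ),
      (∀ i ∈ S, l i ≠ 0) → (∀ i ∈ S, ∀ j ∈ S, x i 0 = x j 0 → x i 1 = x j 1 → i = j) →
      S.card ≤ k → (∀ j, ∑ i ∈ S, l i * MvPolynomial.eval (x i) (F j) = 0) → S = ∅) :
    KRegular k (ofPolys F) := by
  classical
  refine ⟨ofPolys_cont F, fun x hx => ?_⟩
  rw [Fintype.linearIndependent_iff]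
  intro g hg
  have hS := h (univ.filter (fun i => g i ≠ 0)) x g (fun i hi => (mem_filter.1 hi).2)
    (fun i _ j _ h0 h1 => hx (funext (fun a => by fin_cases a <;> assumption)))
    (by simpa using card_le_univ (univ.filter (fun i => g i ≠ 0)))
    (fun j => by
      have := congrFun hg j
      rw [sum_filter_of_ne (fun i _ hi => left_ne_zero_of_mul hi)]
      simpa [ofPolys, Finset.sum_apply] using this)
  intro i
  by_contra hi
  have : i ∈ univ.filter (fun i => g i ≠ 0) := mem_filter.2 ⟨mem_univ i, hi⟩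
  rw [hS] at this
  simp at this

open MvPolynomial in
/-- Three points. -/
lemma reg3 : KRegular 3 (ofPolys (![1, X 0, X 1, X 0 ^ 2, X 1 ^ 2] :
    Fin 5 → MvPolynomial (Fin 2) ℂ)) := by
  refine regular_of _ (fun S x l hl hinj hS h => ?_)
  have h0 := h 0
  have h1 := h 1
  have h2 := h 2
  have h3 := h 3
  have h4 := h 4
  simp at h0 h1 h2 h3 h4
  refine small S (fun i => x i 0) (fun i => x i 1) l hl hinj (by omega) ?_ ?_
  · refine kill S _ l 3 (card_image_le.trans hS) ?_
    intro j hj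
    interval_cases j
    · simpa using h0
    · simpa using h1
    · exact h3
  · refine kill S _ l 3 (card_image_le.trans hS) ?_
    intro j hj
    interval_cases j
    · simpa using h0
    · simpa using h2
    · exact h4

open MvPolynomial in
/-- Two points. -/
lemma reg2 : KRegular 2 (ofPolys (![1, X 0, X 1] : Fin 3 → MvPolynomial (Fin 2) ℂ)) := by
  refine regular_of _ (fun S x l hl hinj hS h => ?_)
  have h0 := h 0
  have h1 := h 1
  have h2 := h 2
  simp at h0 h1 h2
  refine small S (fun i => x i 0) (fun i => x i 1) l hl hinj (by omega) ?_ ?_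
  · refine kill S _ l 2 (card_image_le.trans hS) ?_
    intro j hj
    interval_cases j
    · simpa using h0
    · simpa using h1
  · refine kill S _ l 2 (card_image_le.trans hS) ?_
    intro j hj
    interval_cases j
    · simpa using h0
    · simpa using h2

open MvPolynomial in
/-- One point. -/
lemma reg1 : KRegular 1 (ofPolys (![1] : Fin 1 → MvPolynomial (Fin 2) ℂ)) := by
  refine regular_of _ (fun S x l hl hinj hS h => ?_)
  have h0 := h 0
  simp at h0
  refine small S (fun i => x i 0) (fun i => x i 1) l hl hinj (by omega) ?_ ?_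
  · refine kill S _ l 1 (card_image_le.trans hS) ?_
    intro j hj
    interval_cases j
    · simpa using h0
  · refine kill S _ l 1 (card_image_le.trans hS) ?_
    intro j hj
    interval_cases j
    · simpa using h0

open MvPolynomial in
/-- Four points. -/
lemma reg4 : KRegular 4 (ofPolys (![1, X 0, X 1, X 0 * X 1, X 1 ^ 2, X 0 ^ 3,
    X 0 ^ 2 - X 1 ^ 3] : Fin 7 → MvPolynomial (Fin 2) ℂ)) := by
  refine regular_of _ (fun S x l hl hinj hS h => ?_)
  have h0 := h 0
  have h1 := h 1
  have h2 := h 2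
  have h3 := h 3
  have h4 := h 4
  have h5 := h 5
  have h6 := h 6
  simp at h0 h1 h2 h3 h4 h5 h6
  exact four S (fun i => x i 0) (fun i => x i 1) l hl hinj hS h0 h1 h2 h3 h4 h5 h6

open MvPolynomial in
/-- Five points. -/
lemma reg5 : KRegular 5 (ofPolys (![1, X 0, X 0 ^ 2, X 0 ^ 4, X 1, X 1 ^ 2, X 1 ^ 3, X 0 * X 1,
    X 0 ^ 3 - X 1 ^ 4] : Fin 9 → MvPolynomial (Fin 2) ℂ)) := by
  refine regular_of _ (fun S x l hl hinj hS h => ?_)
  have h0 := h 0
  have h1 := h 1
  have h2 := h 2
  have h3 := h 3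
  have h4 := h 4
  have h5 := h 5
  have h6 := h 6
  have h7 := h 7
  have h8 := h 8
  simp at h0 h1 h2 h3 h4 h5 h6 h7 h8
  exact five S (fun i => x i 0) (fun i => x i 1) l hl hinj hS h0 h1 h2 h3 h4 h5 h6 h7 h8

/-- Adding zero coordinates. -/
lemma pad {k n M N : ℕ} (hMN : M ≤ N) (f : (Fin n → ℂ) → (Fin M → ℂ))
    (hp : IsPolynomialMap f) (hf : KRegular k f) :
    ∃ g : (Fin n → ℂ) → (Fin N → ℂ), IsPolynomialMap g ∧ KRegular k g := by
  refine ⟨fun p j => if h : j.1 < M then f p ⟨j.1, h⟩ else 0, ?_, ?_, ?_⟩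
  · intro j
    by_cases h : j.1 < M
    · obtain ⟨P, hP⟩ := hp ⟨j.1, h⟩
      exact ⟨P, fun x => by simp only [h, dif_pos]; exact hP x⟩
    · exact ⟨0, fun x => by simp [h]⟩
  · refine continuous_pi (fun j => ?_)
    by_cases h : j.1 < M
    · simp only [h, dif_pos]
      exact (continuous_apply (⟨j.1, h⟩ : Fin M)).comp hf.1
    · simp only [h, dif_neg, not_false_eq_true]
      exact continuous_const
  · intro x hx
    refine LinearIndependent.of_comp
      (LinearMap.funLeft ℂ ℂ (fun j : Fin M => (⟨j.1, lt_of_lt_of_le j.2 hMN⟩ : Fin N))) ?_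
    have := hf.2 x hx
    convert this using 1
    funext i j
    simp [LinearMap.funLeft]

/-- For `k = 1, …, 5` and every `N ≥ 2k - 1` there is a polynomial `k`-regular map
`ℂ² → ℂᴺ`. -/
theorem result : ∀ k : ℕ, 1 ≤ k → k ≤ 5 → ∀ N : ℕ, 2 * k - 1 ≤ N →
    ∃ f : (Fin 2 → ℂ) → (Fin N → ℂ), IsPolynomialMap f ∧ KRegular k f := by
  intro k h1 h5 N hN
  interval_cases k
  · exact pad (by omega) _ (ofPolys_poly _) reg1
  · exact pad (by omega) _ (ofPolys_poly _) reg2
  · exact pad (by omega) _ (ofPolys_poly _) reg3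
  · exact pad (by omega) _ (ofPolys_poly _) reg4
  · exact pad (by omega) _ (ofPolys_poly _) reg5

end Pool.Agent.Results.MP_cb9a17_ag.PlaneUpToFivePoints
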